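import Mathlib

/-!
Support-preserving endomorphisms of the convolution semigroup of finitely supported
probability measures on the lattice are Boltzmann reweightings.
-/

namespace Pool.Agent.Results.MP_847c7e_pr.Boltzmann

open AddMonoidAlgebra

section General

variable {G : Type*} [AddCommGroup G]

/-- Nonnegative and nonzero elements of the real group algebra. -/
def Pos (p : AddMonoidAlgebra ℝ G) : Prop := (∀ x, 0 ≤ p.coeff x) ∧ p ≠ 0

/-- All points of the support have level at least `n`. -/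
def Lev (l : G →+ ℤ) (n : ℤ) (u : AddMonoidAlgebra ℝ G) : Prop :=
  ∀ x, u.coeff x ≠ 0 → n ≤ l x

lemma mul_coeff (p q : AddMonoidAlgebra ℝ G) (g : G) :
    (p * q).coeff g = ∑ y ∈ p.coeff.support, p.coeff y * q.coeff (g - y) := by
  rw [AddMonoidAlgebra.coeff_mul_apply_left, Finsupp.sum]
  refine Finset.sum_congr rfl fun y _ => ?_
  rw [neg_add_eq_sub]

lemma Lev.mono {l : G →+ ℤ} {m n : ℤ} {u : AddMonoidAlgebra ℝ G} (h : Lev l n u) (hm : m ≤ n) :
    Lev l m u := fun x hx => hm.trans (h x hx)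

lemma Lev.eq_zero {l : G →+ ℤ} {n : ℤ} {u : AddMonoidAlgebra ℝ G} (h : Lev l n u) {x : G}
    (hx : l x < n) : u.coeff x = 0 := by
  by_contra h'
  exact absurd (h x h') (not_le.mpr hx)

lemma Lev.add {l : G →+ ℤ} {n : ℤ} {u v : AddMonoidAlgebra ℝ G} (hu : Lev l n u)
    (hv : Lev l n v) : Lev l n (u + v) := by
  intro x hx
  by_contra h
  push Not at h
  apply hx
  simp [hu.eq_zero h, hv.eq_zero h]

lemma Lev.neg {l : G →+ ℤ} {n : ℤ} {u : AddMonoidAlgebra ℝ G} (hu : Lev l n u) :
    Lev l n (-u) := by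
  intro x hx
  by_contra h
  push Not at h
  apply hx
  simp [hu.eq_zero h]

lemma Lev.sub {l : G →+ ℤ} {n : ℤ} {u v : AddMonoidAlgebra ℝ G} (hu : Lev l n u)
    (hv : Lev l n v) : Lev l n (u - v) := by
  rw [sub_eq_add_neg]
  exact hu.add hv.neg

lemma Lev.smul {l : G →+ ℤ} {n : ℤ} {u : AddMonoidAlgebra ℝ G} (hu : Lev l n u) (c : ℝ) :
    Lev l n (c • u) := by
  intro x hx
  by_contra h
  push Not at h
  apply hx
  simp [hu.eq_zero h]

lemma Lev.mul {l : G →+ ℤ} {m n : ℤ} {u v : AddMonoidAlgebra ℝ G} (hu : Lev l m u)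
    (hv : Lev l n v) : Lev l (m + n) (u * v) := by
  intro x hx
  by_contra h
  push Not at h
  apply hx
  rw [mul_coeff]
  refine Finset.sum_eq_zero fun y hy => ?_
  have h1 : m ≤ l y := hu y (by simpa using hy)
  have h2 : l (x - y) < n := by
    rw [map_sub]; omega
  rw [hv.eq_zero h2, mul_zero]

lemma Lev.zero {l : G →+ ℤ} {n : ℤ} : Lev l n (0 : AddMonoidAlgebra ℝ G) := by
  intro x hx
  simp at hx

lemma Lev.sum {ι : Type*} {l : G →+ ℤ} {n : ℤ} (s : Finset ι) {u : ι → AddMonoidAlgebra ℝ G}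
    (hu : ∀ i ∈ s, Lev l n (u i)) : Lev l n (∑ i ∈ s, u i) := by
  classical
  induction s using Finset.induction_on with
  | empty => simpa using Lev.zero
  | insert a s ha ih =>
    rw [Finset.sum_insert ha]
    exact (hu a (Finset.mem_insert_self a s)).add
      (ih fun i hi => hu i (Finset.mem_insert_of_mem hi))

lemma Lev.single {l : G →+ ℤ} {n : ℤ} {x : G} (hx : n ≤ l x) (r : ℝ) :
    Lev l n (single x r : AddMonoidAlgebra ℝ G) := by
  intro y hy
  by_cases h : y = x
  · rw [h]; exact hx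
  · exfalso; apply hy
    simp [Ne.symm h]

lemma Lev.one {l : G →+ ℤ} : Lev l 0 (1 : AddMonoidAlgebra ℝ G) := by
  rw [AddMonoidAlgebra.one_def]
  exact Lev.single (by simp) 1

lemma Lev.pow {l : G →+ ℤ} {u : AddMonoidAlgebra ℝ G} (hu : Lev l 1 u) (k : ℕ) :
    Lev l k (u ^ k) := by
  induction k with
  | zero => simpa using Lev.one
  | succ k ih =>
    rw [pow_succ]
    have := ih.mul hu
    exact_mod_cast this

lemma nonneg_mul {p q : AddMonoidAlgebra ℝ G} (hp : ∀ x, 0 ≤ p.coeff x)
    (hq : ∀ x, 0 ≤ q.coeff x) (x : G) : 0 ≤ (p * q).coeff x := by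
  rw [mul_coeff]
  exact Finset.sum_nonneg fun y _ => mul_nonneg (hp y) (hq _)

lemma le_mul_coeff {p q : AddMonoidAlgebra ℝ G} (hp : ∀ x, 0 ≤ p.coeff x)
    (hq : ∀ x, 0 ≤ q.coeff x) (x y : G) : p.coeff x * q.coeff y ≤ (p * q).coeff (x + y) := by
  rw [mul_coeff]
  by_cases hx : x ∈ p.coeff.support
  · have := Finset.single_le_sum (f := fun z => p.coeff z * q.coeff (x + y - z))
      (fun z _ => mul_nonneg (hp z) (hq _)) hx
    simpa using this
  · have h0 : p.coeff x = 0 := by simpa using hx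
    rw [h0, zero_mul]
    exact Finset.sum_nonneg fun y _ => mul_nonneg (hp y) (hq _)

lemma Pos.exists {p : AddMonoidAlgebra ℝ G} (hp : Pos p) : ∃ x, 0 < p.coeff x := by
  by_contra h
  push Not at h
  apply hp.2
  ext x
  simpa using le_antisymm (h x) (hp.1 x)

lemma Pos.mul {p q : AddMonoidAlgebra ℝ G} (hp : Pos p) (hq : Pos q) : Pos (p * q) := by
  refine ⟨nonneg_mul hp.1 hq.1, ?_⟩
  obtain ⟨x, hx⟩ := hp.exists
  obtain ⟨y, hy⟩ := hq.exists
  intro h
  have := le_mul_coeff hp.1 hq.1 x y
  rw [h] at this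
  have h2 := mul_pos hx hy
  simp at this
  linarith

/-- What we use of an endomorphism, extended to nonnegative nonzero elements. -/
structure Endo (F : AddMonoidAlgebra ℝ G → AddMonoidAlgebra ℝ G) : Prop where
  mul : ∀ p q, Pos p → Pos q → F (p * q) = F p * F q
  pos : ∀ p, Pos p → Pos (F p)
  supp : ∀ p, Pos p → ∀ x, (F p).coeff x ≠ 0 ↔ p.coeff x ≠ 0
  smul : ∀ p, Pos p → ∀ c : ℝ, 0 < c → F (c • p) = F p

lemma Endo.coeff_pos {F : AddMonoidAlgebra ℝ G → AddMonoidAlgebra ℝ G} (hF : Endo F)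
    {p : AddMonoidAlgebra ℝ G} (hp : Pos p) {x : G} (hx : p.coeff x ≠ 0) :
    0 < (F p).coeff x :=
  lt_of_le_of_ne ((hF.pos p hp).1 x) (Ne.symm ((hF.supp p hp x).mpr hx))

lemma Endo.coeff_zero {F : AddMonoidAlgebra ℝ G → AddMonoidAlgebra ℝ G} (hF : Endo F)
    {p : AddMonoidAlgebra ℝ G} (hp : Pos p) {x : G} (hx : p.coeff x = 0) :
    (F p).coeff x = 0 := by
  by_contra h
  exact (hF.supp p hp x).mp h hx

/-- The multiplier: clearing the window between level zero and level `L`. -/
lemma exists_multiplier (l : G →+ ℤ) (L : ℕ) {p q : AddMonoidAlgebra ℝ G}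
    (hp : ∀ x, 0 ≤ p.coeff x) (hq : ∀ x, 0 ≤ q.coeff x)
    (hp0 : p.coeff 0 = 1) (hq0 : q.coeff 0 = 1)
    (hpl : Lev l 1 (p - 1)) (hpq : Lev l (L + 1) (q - p)) :
    ∃ f : AddMonoidAlgebra ℝ G, (∀ x, 0 ≤ (p * f).coeff x) ∧ (∀ x, 0 ≤ (q * f).coeff x) ∧
      Lev l (L + 1) (p * f - 1) ∧ Lev l (L + 1) (q * f - 1) := by
  classical
  set g : AddMonoidAlgebra ℝ G := ∑ k ∈ Finset.range (L + 1), (1 - p) ^ k with hg
  have h1p : Lev l 1 (1 - p) := by
    have := hpl.neg
    rwa [neg_sub] at this
  have hpg : p * g - 1 = -(1 - p) ^ (L + 1) := by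
    have := mul_neg_geom_sum (1 - p) (L + 1)
    rw [sub_sub_cancel] at this
    rw [hg, this]; ring
  have hpgl : Lev l (L + 1) (p * g - 1) := by
    rw [hpg]
    have := (h1p.pow (L + 1)).neg
    exact_mod_cast this
  have hgl : Lev l 0 g := by
    rw [hg]
    refine Lev.sum _ fun k _ => ?_
    exact (h1p.pow k).mono (by positivity)
  have hqg : q * g - 1 = (p * g - 1) + (q - p) * g := by ring
  have hqgl : Lev l (L + 1) (q * g - 1) := by
    rw [hqg]
    have := hpq.mul hgl
    rw [add_zero] at this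
    exact hpgl.add this
  set u := p * g - 1 with hu
  set v := q * g - 1 with hv
  set B : Finset G := u.coeff.support ∪ v.coeff.support with hB
  set C : ℝ := ∑ w ∈ B, (|u.coeff w| + |v.coeff w|) with hC
  have hC0 : 0 ≤ C := Finset.sum_nonneg fun w _ => by positivity
  set H : AddMonoidAlgebra ℝ G := ∑ w ∈ B, single w 1 with hH
  have hHc : ∀ x, H.coeff x = if x ∈ B then 1 else 0 := by
    intro x
    rw [hH, AddMonoidAlgebra.coeff_sum, Finsupp.finsetSum_apply]
    simp [Finsupp.single_apply]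
  have hH0 : ∀ x, 0 ≤ H.coeff x := by
    intro x; rw [hHc]; split_ifs <;> norm_num
  have hHl : Lev l (L + 1) H := by
    rw [hH]
    refine Lev.sum _ fun w hw => Lev.single ?_ 1
    rw [hB, Finset.mem_union] at hw
    rcases hw with hw | hw
    · exact hpgl w (by simpa using hw)
    · exact hqgl w (by simpa using hw)
  have hone : ∀ x, (0 : ℝ) ≤ (1 : AddMonoidAlgebra ℝ G).coeff x := by
    intro x
    rw [AddMonoidAlgebra.one_def, AddMonoidAlgebra.coeff_single, Finsupp.single_apply]
    split_ifs <;> norm_num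
  have hpl0 : Lev l 0 p := by
    have := (hpl.mono (show (0:ℤ) ≤ 1 by norm_num)).add Lev.one
    simpa using this
  have hql0 : Lev l 0 q := by
    have := (hpq.mono (show (0:ℤ) ≤ L + 1 by positivity)).add hpl0
    simpa using this
  have key : ∀ (a b : AddMonoidAlgebra ℝ G), (∀ x, 0 ≤ a.coeff x) → a.coeff 0 = 1 →
      a * g = 1 + b → (∀ x, b.coeff x ≠ 0 → x ∈ B) → (∀ x, x ∈ B → |b.coeff x| ≤ C) →
      ∀ x, 0 ≤ (a * (g + C • H)).coeff x := by
    intro a b ha ha0 hab hb1 hb2 x
    have e1 : a * (g + C • H) = 1 + b + C • (a * H) := by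
      rw [mul_add, hab, mul_smul_comm]
    rw [e1, AddMonoidAlgebra.coeff_add, AddMonoidAlgebra.coeff_add, AddMonoidAlgebra.coeff_smul,
      Finsupp.add_apply, Finsupp.add_apply, Finsupp.smul_apply, smul_eq_mul]
    have h1 := hone x
    have h2 : H.coeff x ≤ (a * H).coeff x := by
      have := le_mul_coeff ha hH0 0 x
      simpa [ha0] using this
    by_cases hx : x ∈ B
    · have h3 := hb2 x hx
      have h4 : (1:ℝ) ≤ (a * H).coeff x := by
        rw [hHc, if_pos hx] at h2; exact h2
      have h5 := neg_abs_le (b.coeff x)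
      nlinarith
    · have h3 : b.coeff x = 0 := by
        by_contra h; exact hx (hb1 x h)
      have h4 : 0 ≤ (a * H).coeff x := le_trans (hH0 x) h2
      rw [h3]
      positivity
  refine ⟨g + C • H, ?_, ?_, ?_, ?_⟩
  · refine key p u hp hp0 (by rw [hu]; ring) ?_ ?_
    · intro x hx
      rw [hB, Finset.mem_union]; left; simpa using hx
    · intro x hx
      have := Finset.single_le_sum (f := fun w => |u.coeff w| + |v.coeff w|)
        (fun w _ => by positivity) hx
      have h2 := abs_nonneg (v.coeff x)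
      linarith
  · refine key q v hq hq0 (by rw [hv]; ring) ?_ ?_
    · intro x hx
      rw [hB, Finset.mem_union]; right; simpa using hx
    · intro x hx
      have := Finset.single_le_sum (f := fun w => |u.coeff w| + |v.coeff w|)
        (fun w _ => by positivity) hx
      have h2 := abs_nonneg (u.coeff x)
      linarith
  · have : p * (g + C • H) - 1 = u + C • (p * H) := by
      rw [mul_add, mul_smul_comm, hu]; ring
    rw [this]
    refine hpgl.add (Lev.smul ?_ C)
    have := hpl0.mul hHl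
    rwa [zero_add] at this
  · have : q * (g + C • H) - 1 = v + C • (q * H) := by
      rw [mul_add, mul_smul_comm, hv]; ring
    rw [this]
    refine hqgl.add (Lev.smul ?_ C)
    have := hql0.mul hHl
    rwa [zero_add] at this

lemma one_nonneg (x : G) : (0 : ℝ) ≤ (1 : AddMonoidAlgebra ℝ G).coeff x := by
  classical
  rw [AddMonoidAlgebra.one_def, AddMonoidAlgebra.coeff_single, Finsupp.single_apply]
  split_ifs <;> norm_num

lemma window_aux (l : G →+ ℤ) (L : ℕ) {a Q : AddMonoidAlgebra ℝ G}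
    (ha : ∀ x, a.coeff x ≠ 0 → x = 0 ∨ (L : ℤ) + 1 ≤ l x) (hQ : Lev l 0 Q) {x : G}
    (hx : l x ≤ L) : (a * Q).coeff x = a.coeff 0 * Q.coeff x := by
  classical
  have e : a = single 0 (a.coeff 0) + (a - single 0 (a.coeff 0)) := by ring
  have h1 : Lev l (L + 1) (a - single 0 (a.coeff 0)) := by
    intro y hy
    by_cases h0 : y = 0
    · exfalso; apply hy; subst h0; simp
    · have : a.coeff y ≠ 0 := by
        intro h; apply hy; simp [h, Ne.symm h0]
      rcases ha y this with h | h
      · exact absurd h h0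
      · exact h
  have h2 : ((a - single 0 (a.coeff 0)) * Q).coeff x = 0 := by
    have := h1.mul hQ
    rw [add_zero] at this
    exact this.eq_zero (by omega)
  conv_lhs => rw [e]
  rw [add_mul, AddMonoidAlgebra.coeff_add, Finsupp.add_apply, h2, add_zero,
    AddMonoidAlgebra.coeff_single_zero_mul]

/-- The window lemma. -/
lemma window {F : AddMonoidAlgebra ℝ G → AddMonoidAlgebra ℝ G} (hF : Endo F) (l : G →+ ℤ)
    (L : ℕ) {p q : AddMonoidAlgebra ℝ G} (hp : ∀ x, 0 ≤ p.coeff x) (hq : ∀ x, 0 ≤ q.coeff x)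
    (hp0 : p.coeff 0 = 1) (hq0 : q.coeff 0 = 1)
    (hpl : Lev l 1 (p - 1)) (hpq : Lev l (L + 1) (q - p)) {x : G} (hx : l x ≤ L) :
    (F p).coeff x * (F q).coeff 0 = (F q).coeff x * (F p).coeff 0 := by
  obtain ⟨f, hf1, hf2, hf3, hf4⟩ := exists_multiplier l L hp hq hp0 hq0 hpl hpq
  have hl0 : l 0 = 0 := map_zero l
  have hPp : Pos p := ⟨hp, fun h => by rw [h] at hp0; simp at hp0⟩
  have hPq : Pos q := ⟨hq, fun h => by rw [h] at hq0; simp at hq0⟩
  have hpf0 : (p * f).coeff 0 = 1 := by
    have := hf3.eq_zero (x := 0) (by rw [hl0]; positivity)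
    simpa [sub_eq_zero] using this
  have hqf0 : (q * f).coeff 0 = 1 := by
    have := hf4.eq_zero (x := 0) (by rw [hl0]; positivity)
    simpa [sub_eq_zero] using this
  have hPpf : Pos (p * f) := ⟨hf1, fun h => by rw [h] at hpf0; simp at hpf0⟩
  have hPqf : Pos (q * f) := ⟨hf2, fun h => by rw [h] at hqf0; simp at hqf0⟩
  have hpl0 : Lev l 0 p := by
    have := (hpl.mono (show (0:ℤ) ≤ 1 by norm_num)).add Lev.one
    simpa using this
  have hql0 : Lev l 0 q := by
    have := (hpq.mono (show (0:ℤ) ≤ L + 1 by positivity)).add hpl0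
    simpa using this
  have hsupp : ∀ r : AddMonoidAlgebra ℝ G, Lev l (L + 1) (r - 1) → Pos r →
      ∀ y, (F r).coeff y ≠ 0 → y = 0 ∨ (L : ℤ) + 1 ≤ l y := by
    intro r hr hPr y hy
    rw [hF.supp r hPr] at hy
    by_cases h0 : y = 0
    · exact Or.inl h0
    · right
      apply hr y
      rw [AddMonoidAlgebra.coeff_sub, AddMonoidAlgebra.one_def]
      simpa [Ne.symm h0] using hy
  have hFl : ∀ r : AddMonoidAlgebra ℝ G, Pos r → Lev l 0 r → Lev l 0 (F r) := by
    intro r hPr hr y hy
    rw [hF.supp r hPr] at hy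
    exact hr y hy
  have e : F (p * f) * F q = F (q * f) * F p := by
    rw [← hF.mul _ _ hPpf hPq, ← hF.mul _ _ hPqf hPp]
    congr 1; ring
  have e1 : ∀ y, l y ≤ L → (F (p * f)).coeff 0 * (F q).coeff y =
      (F (q * f)).coeff 0 * (F p).coeff y := by
    intro y hy
    rw [← window_aux l L (hsupp _ hf3 hPpf) (hFl q hPq hql0) hy,
      ← window_aux l L (hsupp _ hf4 hPqf) (hFl p hPp hpl0) hy, e]
  have e2 := e1 x hx
  have e3 := e1 0 (by rw [hl0]; positivity)
  have h1 : 0 < (F (q * f)).coeff 0 := hF.coeff_pos hPqf (by rw [hqf0]; norm_num)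
  have : (F (q * f)).coeff 0 * ((F p).coeff x * (F q).coeff 0) =
      (F (q * f)).coeff 0 * ((F q).coeff x * (F p).coeff 0) := by
    calc (F (q * f)).coeff 0 * ((F p).coeff x * (F q).coeff 0)
        = ((F (q * f)).coeff 0 * (F p).coeff x) * (F q).coeff 0 := by ring
      _ = ((F (p * f)).coeff 0 * (F q).coeff x) * (F q).coeff 0 := by rw [e2]
      _ = (F q).coeff x * ((F (p * f)).coeff 0 * (F q).coeff 0) := by ring
      _ = (F q).coeff x * ((F (q * f)).coeff 0 * (F p).coeff 0) := by rw [e3]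
      _ = _ := by ring
  exact mul_left_cancel₀ h1.ne' this

/-- Positive additive functions on the positive half-line are linear. -/
lemma additive_linear (r : ℝ → ℝ) (hpos : ∀ a, 0 < a → 0 < r a)
    (hadd : ∀ a b, 0 < a → 0 < b → r (a + b) = r a + r b) : ∀ a, 0 < a → r a = a * r 1 := by
  have hnat : ∀ (n : ℕ) (a : ℝ), 0 < a → r ((n + 1 : ℕ) * a) = (n + 1 : ℕ) * r a := by
    intro n a ha
    induction n with
    | zero => simp
    | succ n ih =>
      have : ((n + 1 + 1 : ℕ) : ℝ) * a = (n + 1 : ℕ) * a + a := by push_cast; ring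
      rw [this, hadd _ _ (by positivity) ha, ih]
      push_cast; ring
  have hmono : ∀ a b, 0 < a → a < b → r a < r b := by
    intro a b ha hab
    have h1 := hadd a (b - a) ha (by linarith)
    have h2 := hpos (b - a) (by linarith)
    rw [add_sub_cancel] at h1
    linarith
  have hrat : ∀ s : ℚ, 0 < s → r s = s * r 1 := by
    intro s hs
    obtain ⟨m, hm⟩ : ∃ m : ℕ, s.num = (m + 1 : ℕ) :=
      ⟨s.num.toNat - 1, by have := Rat.num_pos.mpr hs; omega⟩
    obtain ⟨n, hn⟩ : ∃ n : ℕ, s.den = n + 1 := ⟨s.den - 1, by have := s.den_pos; omega⟩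
    have hs' : (0:ℝ) < (s : ℝ) := by exact_mod_cast hs
    have h1 := hnat n s hs'
    have h2 := hnat m 1 one_pos
    have h3 : ((n + 1 : ℕ) : ℝ) * (s : ℝ) = (m + 1 : ℕ) * 1 := by
      have : (s : ℚ) * s.den = s.num := Rat.mul_den_eq_num s
      rw [hn, hm] at this
      have h4 : ((s : ℝ)) * ((n + 1 : ℕ) : ℝ) = ((m + 1 : ℕ) : ℝ) := by exact_mod_cast this
      rw [mul_one, ← h4]; ring
    rw [h3, h2] at h1
    have h5 : ((n + 1 : ℕ) : ℝ) * r s = ((n + 1 : ℕ) : ℝ) * (s * r 1) := by
      rw [← h1, ← mul_assoc, h3, mul_one]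
    exact mul_left_cancel₀ (by positivity) h5
  intro a ha
  have hr1 := hpos 1 one_pos
  rcases lt_trichotomy (r a) (a * r 1) with h | h | h
  · exfalso
    have h1 : r a / r 1 < a := by rwa [div_lt_iff₀ hr1]
    obtain ⟨s, hs1, hs2⟩ := exists_rat_btwn h1
    have hs0 : (0 : ℝ) < s := lt_trans (div_pos (hpos a ha) hr1) hs1
    have h2 := hmono s a hs0 hs2
    rw [hrat s (by exact_mod_cast hs0)] at h2
    rw [div_lt_iff₀ hr1] at hs1
    linarith
  · exact h
  · exfalso
    have h1 : a < r a / r 1 := by rwa [lt_div_iff₀ hr1]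
    obtain ⟨s, hs1, hs2⟩ := exists_rat_btwn h1
    have hs0 : (0 : ℝ) < s := lt_trans ha hs1
    have h2 := hmono a s ha hs1
    rw [hrat s (by exact_mod_cast hs0)] at h2
    rw [lt_div_iff₀ hr1] at hs2
    linarith

/-- The two-point element `1 + a x^z`. -/
noncomputable def E (z : G) (a : ℝ) : AddMonoidAlgebra ℝ G := single 0 1 + single z a

lemma E_zero {z : G} (hz : z ≠ 0) (a : ℝ) : (E z a).coeff 0 = 1 := by
  simp [E, hz]

lemma E_self {z : G} (hz : z ≠ 0) (a : ℝ) : (E z a).coeff z = a := by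
  simp [E, hz.symm]

lemma E_other {z x : G} (hx : x ≠ 0) (hxz : x ≠ z) (a : ℝ) : (E z a).coeff x = 0 := by
  simp [E, hx.symm, hxz.symm]

lemma E_nonneg (z : G) {a : ℝ} (ha : 0 ≤ a) (x : G) : 0 ≤ (E z a).coeff x := by
  classical
  rw [E, AddMonoidAlgebra.coeff_add, Finsupp.add_apply, AddMonoidAlgebra.coeff_single,
    AddMonoidAlgebra.coeff_single, Finsupp.single_apply, Finsupp.single_apply]
  split_ifs <;> linarith

lemma E_pos {z : G} (hz : z ≠ 0) {a : ℝ} (ha : 0 ≤ a) : Pos (E z a) :=
  ⟨E_nonneg z ha, fun h => by have := E_zero hz a; rw [h] at this; simp at this⟩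

lemma E_lev {l : G →+ ℤ} {z : G} (hz : 0 < l z) (a : ℝ) : Lev l 1 (E z a - 1) := by
  have : E z a - 1 = single z a := by
    rw [E, AddMonoidAlgebra.one_def]; ring
  rw [this]
  exact Lev.single (by omega) a

/-- The ratio of the two values of `F` on a two-point element. -/
noncomputable def ratio (F : AddMonoidAlgebra ℝ G → AddMonoidAlgebra ℝ G) (z : G) (a : ℝ) : ℝ :=
  (F (E z a)).coeff z / (F (E z a)).coeff 0

variable {F : AddMonoidAlgebra ℝ G → AddMonoidAlgebra ℝ G}

lemma FE_zero_pos (hF : Endo F) {z : G} (hz : z ≠ 0) {a : ℝ} (ha : 0 < a) :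
    0 < (F (E z a)).coeff 0 :=
  hF.coeff_pos (E_pos hz ha.le) (by rw [E_zero hz]; norm_num)

lemma FE_self_pos (hF : Endo F) {z : G} (hz : z ≠ 0) {a : ℝ} (ha : 0 < a) :
    0 < (F (E z a)).coeff z :=
  hF.coeff_pos (E_pos hz ha.le) (by rw [E_self hz]; exact ha.ne')

lemma ratio_pos (hF : Endo F) {z : G} (hz : z ≠ 0) {a : ℝ} (ha : 0 < a) : 0 < ratio F z a :=
  div_pos (FE_self_pos hF hz ha) (FE_zero_pos hF hz ha)

lemma FE_form (hF : Endo F) {z : G} (hz : z ≠ 0) {a : ℝ} (ha : 0 < a) :
    ∃ s, 0 < s ∧ F (E z a) = single 0 s + single z (ratio F z a * s) := by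
  refine ⟨(F (E z a)).coeff 0, FE_zero_pos hF hz ha, ?_⟩
  rw [ratio, div_mul_cancel₀ _ (FE_zero_pos hF hz ha).ne']
  ext x
  rw [AddMonoidAlgebra.coeff_add, Finsupp.add_apply, AddMonoidAlgebra.coeff_single,
    AddMonoidAlgebra.coeff_single]
  by_cases h0 : x = 0
  · subst h0; simp [hz]
  · by_cases h1 : x = z
    · subst h1; simp [Ne.symm h0]
    · simp only [Finsupp.single_eq_of_ne h0, Finsupp.single_eq_of_ne h1, add_zero]
      exact hF.coeff_zero (E_pos hz ha.le) (E_other h0 h1 a)

lemma ratio_add (hF : Endo F) {l : G →+ ℤ} {z : G} (hlz : 0 < l z) {a b : ℝ} (ha : 0 < a)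
    (hb : 0 < b) : ratio F z (a + b) = ratio F z a + ratio F z b := by
  have hz : z ≠ 0 := by rintro rfl; simp at hlz
  have hzz : z + z ≠ 0 := by
    intro h
    have := congrArg l h
    rw [map_add, map_zero] at this
    omega
  obtain ⟨s, hs, hsE⟩ := FE_form hF hz ha
  obtain ⟨s', hs', hsE'⟩ := FE_form hF hz hb
  obtain ⟨s'', hs'', hsE''⟩ := FE_form hF hz (add_pos ha hb)
  have hab : E z a * E z b = single 0 1 + single z (a + b) + single (z + z) (a * b) := by
    simp only [E, mul_add, add_mul, AddMonoidAlgebra.single_mul_single, zero_add, add_zero,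
      mul_one, one_mul, AddMonoidAlgebra.single_add]
    ring
  obtain ⟨L, hL⟩ : ∃ L : ℕ, (L : ℤ) = l z := ⟨(l z).toNat, by omega⟩
  have hp0 : (E z a * E z b).coeff 0 = 1 := by
    rw [hab]; simp [hz, hzz]
  have hlev : Lev l 1 (E z a * E z b - 1) := by
    rw [hab, AddMonoidAlgebra.one_def]
    have : single 0 1 + single z (a + b) + single (z + z) (a * b) - single (0 : G) (1 : ℝ) =
      single z (a + b) + single (z + z) (a * b) := by ring
    rw [this]
    exact (Lev.single (by omega) _).add (Lev.single (by rw [map_add]; omega) _)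
  have hlev2 : Lev l (L + 1) (E z (a + b) - E z a * E z b) := by
    rw [hab, E]
    have : single 0 1 + single z (a + b) -
      (single 0 1 + single z (a + b) + single (z + z) (a * b)) =
      - (single (z + z) (a * b) : AddMonoidAlgebra ℝ G) := by ring
    rw [this]
    exact (Lev.single (by rw [map_add]; omega) _).neg
  have hw := window hF l L (nonneg_mul (E_nonneg z ha.le) (E_nonneg z hb.le))
    (E_nonneg z (add_pos ha hb).le) hp0 (E_zero hz _) hlev hlev2 (x := z) hL.ge
  rw [hF.mul _ _ (E_pos hz ha.le) (E_pos hz hb.le), hsE, hsE', hsE''] at hw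
  have hprod : (single 0 s + single z (ratio F z a * s)) *
      (single 0 s' + single z (ratio F z b * s')) =
      (single 0 (s * s') + single z (s * (ratio F z b * s') + ratio F z a * s * s') +
      single (z + z) (ratio F z a * s * (ratio F z b * s')) : AddMonoidAlgebra ℝ G) := by
    simp only [mul_add, add_mul, AddMonoidAlgebra.single_mul_single, zero_add, add_zero,
      AddMonoidAlgebra.single_add]
    ring
  rw [hprod] at hw
  have hz' : (0 : G) ≠ z := hz.symm
  simp [hz, hzz, hz'] at hw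
  have h3 : s * s' * s'' ≠ 0 := by positivity
  apply mul_left_cancel₀ h3
  linarith

/-- The multiplier attached to a lattice point. -/
noncomputable def kap (F : AddMonoidAlgebra ℝ G → AddMonoidAlgebra ℝ G) (z : G) : ℝ :=
  ratio F z 1

lemma ratio_linear (hF : Endo F) {l : G →+ ℤ} {z : G} (hlz : 0 < l z) {a : ℝ} (ha : 0 < a) :
    ratio F z a = a * kap F z := by
  have hz : z ≠ 0 := by rintro rfl; simp at hlz
  exact additive_linear (ratio F z) (fun a ha => ratio_pos hF hz ha)
    (fun a b ha hb => ratio_add hF hlz ha hb) a ha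

lemma mul_single_coeff (q : AddMonoidAlgebra ℝ G) (z : G) (a : ℝ) (x : G) :
    (q * single z a).coeff x = q.coeff (x - z) * a := by
  rw [AddMonoidAlgebra.coeff_mul_single_eq_coeff_mul (x - z)]
  intro m _
  constructor
  · rintro rfl; simp
  · rintro rfl; simp

lemma coeff_formula (hF : Endo F) {l : G →+ ℤ} {p : AddMonoidAlgebra ℝ G}
    (hp : ∀ x, 0 ≤ p.coeff x) (hp0 : p.coeff 0 = 1) (hpl : Lev l 1 (p - 1))
    {z : G} (hz : z ≠ 0) (hpz : p.coeff z ≠ 0)
    (hinj : ∀ x, p.coeff x ≠ 0 → l x = l z → x = z) :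
    (F p).coeff z = (F p).coeff 0 * (kap F z * p.coeff z) := by
  classical
  have hone : ∀ x, x ≠ 0 → (1 : AddMonoidAlgebra ℝ G).coeff x = 0 := by
    intro x hx
    rw [AddMonoidAlgebra.one_def]; simp [hx]
  have hpl' : ∀ x, x ≠ 0 → p.coeff x ≠ 0 → 1 ≤ l x := by
    intro x hx hpx
    apply hpl x
    rw [AddMonoidAlgebra.coeff_sub, Finsupp.sub_apply, hone x hx, sub_zero]
    exact hpx
  have hlz : 1 ≤ l z := hpl' z hz hpz
  obtain ⟨L, hL⟩ : ∃ L : ℕ, (L : ℤ) = l z := ⟨(l z).toNat, by omega⟩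
  set q : AddMonoidAlgebra ℝ G := .ofCoeff (p.coeff.filter (fun x => l x < l z)) with hq
  have hqc : ∀ x, q.coeff x = if l x < l z then p.coeff x else 0 := by
    intro x
    rw [hq, AddMonoidAlgebra.coeff_ofCoeff, Finsupp.filter_apply]
  set a := p.coeff z with ha'
  have ha : 0 < a := lt_of_le_of_ne (hp z) (Ne.symm hpz)
  have hq0 : q.coeff 0 = 1 := by
    rw [hqc, if_pos (by rw [map_zero]; omega), hp0]
  have hqn : ∀ x, 0 ≤ q.coeff x := by
    intro x; rw [hqc]; split_ifs
    · exact hp x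
    · exact le_rfl
  have hPq : Pos q := ⟨hqn, fun h => by rw [h] at hq0; simp at hq0⟩
  have hPp : Pos p := ⟨hp, fun h => by rw [h] at hp0; simp at hp0⟩
  have hqz : q.coeff z = 0 := by rw [hqc, if_neg (lt_irrefl _)]
  have hqneg : ∀ x, l x < 0 → q.coeff x = 0 := by
    intro x hx
    rw [hqc]
    split_ifs
    · by_contra h
      have hx0 : x ≠ 0 := by rintro rfl; simp at hx
      have := hpl' x hx0 h
      omega
    · rfl
  have hqE : ∀ x, (q * E z a).coeff x = q.coeff x + q.coeff (x - z) * a := by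
    intro x
    rw [E, mul_add, AddMonoidAlgebra.coeff_add, Finsupp.add_apply, mul_single_coeff,
      mul_single_coeff, sub_zero, mul_one]
  have hlev : Lev l (L + 1) (q * E z a - p) := by
    intro x hx
    by_contra hlx
    push Not at hlx
    apply hx
    rw [AddMonoidAlgebra.coeff_sub, Finsupp.sub_apply, hqE]
    rcases lt_or_eq_of_le (show l x ≤ l z by omega) with h | h
    · rw [hqneg (x - z) (by rw [map_sub]; omega), hqc, if_pos h]; ring
    · rw [hqc x, if_neg (by omega)]
      by_cases hxz : x = z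
      · subst hxz
        rw [sub_self, hq0, ha']; ring
      · have h1 : p.coeff x = 0 := by
          by_contra h2; exact hxz (hinj x h2 h)
        have h3 : q.coeff (x - z) = 0 := by
          rw [hqc]
          split_ifs
          · by_contra h4
            have := hpl' (x - z) (sub_ne_zero.mpr hxz) h4
            rw [map_sub] at this
            omega
          · rfl
        rw [h1, h3]; ring
  have hqE0 : (q * E z a).coeff 0 = 1 := by
    rw [hqE, hq0, hqneg (0 - z) (by rw [map_sub, map_zero]; omega)]; ring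
  have hw := window hF l L hp (nonneg_mul hqn (E_nonneg z ha.le)) hp0 hqE0 hpl hlev
    (x := z) hL.ge
  rw [hF.mul _ _ hPq (E_pos hz ha.le)] at hw
  obtain ⟨s, hs, hsE⟩ := FE_form hF hz ha
  rw [hsE, ratio_linear hF (by omega : 0 < l z) ha] at hw
  have hc : ∀ x, (F q * (single 0 s + single z (a * kap F z * s))).coeff x =
      (F q).coeff x * s + (F q).coeff (x - z) * (a * kap F z * s) := by
    intro x
    rw [mul_add, AddMonoidAlgebra.coeff_add, Finsupp.add_apply, mul_single_coeff,
      mul_single_coeff, sub_zero]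
  rw [hc, hc, sub_self, hF.coeff_zero hPq hqz,
    hF.coeff_zero hPq (hqneg (0 - z) (by rw [map_sub, map_zero]; omega))] at hw
  have hFq0 : 0 < (F q).coeff 0 := hF.coeff_pos hPq (by rw [hq0]; norm_num)
  have h1 : (F q).coeff 0 * s ≠ 0 := by positivity
  apply mul_left_cancel₀ h1
  linarith

/-- Translating. -/
lemma F_single (hF : Endo F) (z : G) : ∃ r, 0 < r ∧ F (single z 1) = single z r := by
  have hP : Pos (single z 1 : AddMonoidAlgebra ℝ G) := by
    classical
    refine ⟨fun x => ?_, ?_⟩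
    · rw [AddMonoidAlgebra.coeff_single, Finsupp.single_apply]
      split_ifs <;> norm_num
    · rw [Ne, AddMonoidAlgebra.single_eq_zero]; norm_num
  refine ⟨(F (single z 1)).coeff z, hF.coeff_pos hP (by simp), ?_⟩
  ext x
  by_cases h : x = z
  · subst h; simp
  · rw [AddMonoidAlgebra.coeff_single, Finsupp.single_eq_of_ne h]
    exact hF.coeff_zero hP (by simp [h])

lemma single_pos (z : G) : Pos (single z 1 : AddMonoidAlgebra ℝ G) := by
  classical
  refine ⟨fun x => ?_, ?_⟩
  · rw [AddMonoidAlgebra.coeff_single, Finsupp.single_apply]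
    split_ifs <;> norm_num
  · rw [Ne, AddMonoidAlgebra.single_eq_zero]; norm_num

lemma kap_zero (hF : Endo F) : kap F (0 : G) = 1 := by
  have hP : Pos (E (0 : G) 1) := by
    refine ⟨E_nonneg 0 zero_le_one, ?_⟩
    rw [E, ← AddMonoidAlgebra.single_add, Ne, AddMonoidAlgebra.single_eq_zero]
    norm_num
  have h : 0 < (F (E (0 : G) 1)).coeff 0 := hF.coeff_pos hP (by simp [E])
  rw [kap, ratio, div_self h.ne']

lemma kap_pos (hF : Endo F) (z : G) : 0 < kap F z := by
  by_cases hz : z = 0
  · rw [hz, kap_zero hF]; norm_num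
  · exact ratio_pos hF hz one_pos

lemma kap_neg (hF : Endo F) (z : G) : kap F (-z) * kap F z = 1 := by
  by_cases hz : z = 0
  · rw [hz, neg_zero, kap_zero hF, one_mul]
  · have hz' : -z ≠ 0 := neg_ne_zero.mpr hz
    have e : E (-z) 1 = single (-z) 1 * E z 1 := by
      simp only [E, mul_add, AddMonoidAlgebra.single_mul_single, add_zero, mul_one,
        neg_add_cancel]
      ring
    obtain ⟨r, hr, hrE⟩ := F_single hF (-z)
    obtain ⟨s, hs, hsE⟩ := FE_form hF hz one_pos
    obtain ⟨s', hs', hsE'⟩ := FE_form hF hz' one_pos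
    have h1 : F (E (-z) 1) = single (-z) (r * s) + single 0 (r * (kap F z * s)) := by
      rw [e, hF.mul _ _ (single_pos _) (E_pos hz zero_le_one), hrE, hsE]
      simp only [mul_add, AddMonoidAlgebra.single_mul_single, add_zero, neg_add_cancel]
      rfl
    have h2 := h1.symm.trans hsE'
    have h3 := congrArg (fun w => w.coeff 0) h2
    have h4 := congrArg (fun w => w.coeff (-z)) h2
    simp [hz] at h3 h4
    have h5 : ratio F (-z) 1 = kap F (-z) := rfl
    rw [h5] at h4
    rw [← h3] at h4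
    have h6 : r * s ≠ 0 := by positivity
    apply mul_left_cancel₀ h6
    linarith

/-- Multiplicativity for two points of positive level. -/
lemma kap_mul_pos (hF : Endo F) {l : G →+ ℤ} {z w : G} (hz : 0 < l z) (hw : 0 < l w) :
    kap F (z + w) = kap F z * kap F w := by
  have hz0 : z ≠ 0 := by rintro rfl; simp at hz
  have hw0 : w ≠ 0 := by rintro rfl; simp at hw
  have hzw0 : z + w ≠ 0 := by
    intro h
    have := congrArg l h
    rw [map_add, map_zero] at this
    omega
  have hzwz : z + w ≠ z := by intro h; apply hw0; simpa using h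
  have hzww : z + w ≠ w := by intro h; apply hz0; simpa using h
  have hp0 : (E z 1 * E w 1).coeff 0 = 1 := by
    simp only [E, mul_add, add_mul, AddMonoidAlgebra.single_mul_single, zero_add, add_zero,
      mul_one]
    simp [hz0, hw0, hzw0]
  have hab : E z 1 * E w 1 = single 0 1 + (single z 1 + single w 1 + single (z + w) 1) := by
    simp only [E, mul_add, add_mul, AddMonoidAlgebra.single_mul_single, zero_add, add_zero,
      mul_one]
    ring
  have hlev : Lev l 1 (E z 1 * E w 1 - 1) := by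
    rw [hab, AddMonoidAlgebra.one_def, add_sub_cancel_left]
    refine ((Lev.single (by omega) _).add (Lev.single (by omega) _)).add
      (Lev.single (by rw [map_add]; omega) _)
  have hpzw : (E z 1 * E w 1).coeff (z + w) = 1 := by
    rw [hab]
    simp [hz0, hw0, hzw0]
  have hform := coeff_formula hF (nonneg_mul (E_nonneg z zero_le_one) (E_nonneg w zero_le_one))
    hp0 hlev hzw0 (by rw [hpzw]; norm_num) (by
      intro x hx hlx
      by_contra hne
      apply hx
      rw [hab]
      have h0 : x ≠ 0 := by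
        rintro rfl; rw [map_zero, map_add] at hlx; omega
      have h1 : x ≠ z := by
        rintro rfl; rw [map_add] at hlx; omega
      have h2 : x ≠ w := by
        rintro rfl; rw [map_add] at hlx; omega
      simp only [AddMonoidAlgebra.coeff_add, AddMonoidAlgebra.coeff_single, Finsupp.add_apply,
        Finsupp.single_eq_of_ne h0, Finsupp.single_eq_of_ne h1, Finsupp.single_eq_of_ne h2,
        Finsupp.single_eq_of_ne hne]
      norm_num)
  rw [hpzw, hF.mul _ _ (E_pos hz0 zero_le_one) (E_pos hw0 zero_le_one)] at hform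
  obtain ⟨s, hs, hsE⟩ := FE_form hF hz0 one_pos
  obtain ⟨s', hs', hsE'⟩ := FE_form hF hw0 one_pos
  rw [hsE, hsE'] at hform
  have h5 : ratio F z 1 = kap F z := rfl
  have h6 : ratio F w 1 = kap F w := rfl
  rw [h5, h6] at hform
  simp only [mul_add, add_mul, AddMonoidAlgebra.single_mul_single, zero_add, add_zero] at hform
  simp [hz0, hw0, hzw0] at hform
  have h7 : s * s' ≠ 0 := by positivity
  apply mul_left_cancel₀ h7
  linarith

/-- Enough integer-valued homomorphisms. -/
def Sep (G : Type*) [AddCommGroup G] : Prop :=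
  ∀ S : Finset G, (∀ x ∈ S, x ≠ 0) → ∃ l : G →+ ℤ, ∀ x ∈ S, l x ≠ 0

lemma kap_neg' (hF : Endo F) (z : G) : kap F (-z) = (kap F z)⁻¹ :=
  eq_inv_of_mul_eq_one_left (kap_neg hF z)

lemma kap_mul (hF : Endo F) (hG : Sep G) (z w : G) : kap F (z + w) = kap F z * kap F w := by
  classical
  by_cases hz : z = 0
  · rw [hz, zero_add, kap_zero hF, one_mul]
  by_cases hw : w = 0
  · rw [hw, add_zero, kap_zero hF, mul_one]
  by_cases hzw : z + w = 0
  · have : w = -z := by rw [eq_neg_iff_add_eq_zero, add_comm]; exact hzw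
    rw [this, add_neg_cancel, kap_zero hF, mul_comm, kap_neg hF]
  obtain ⟨l, hl⟩ := hG {z, w, z + w} (by
    intro x hx
    simp only [Finset.mem_insert, Finset.mem_singleton] at hx
    rcases hx with rfl | rfl | rfl <;> assumption)
  have h1 : l z ≠ 0 := hl z (by simp)
  have h2 : l w ≠ 0 := hl w (by simp)
  have h3 : l (z + w) ≠ 0 := hl (z + w) (by simp)
  have pz := kap_pos hF z
  have pw := kap_pos hF w
  have pzw := kap_pos hF (z + w)
  rcases lt_or_gt_of_ne h1 with h1 | h1 <;> rcases lt_or_gt_of_ne h2 with h2 | h2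
  · have := kap_mul_pos hF (l := l) (z := -z) (w := -w) (by rw [map_neg]; omega)
      (by rw [map_neg]; omega)
    rw [show -z + -w = -(z + w) by abel, kap_neg' hF, kap_neg' hF, kap_neg' hF, ← mul_inv] at this
    exact inv_injective this
  · rcases lt_or_gt_of_ne h3 with h3 | h3
    · have := kap_mul_pos hF (l := l) (z := -(z + w)) (w := w) (by rw [map_neg]; omega) h2
      rw [show -(z + w) + w = -z by abel, kap_neg' hF, kap_neg' hF] at this
      field_simp at this
      linarith
    · have := kap_mul_pos hF (l := l) (z := z + w) (w := -z) h3 (by rw [map_neg]; omega)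
      rw [show z + w + -z = w by abel, kap_neg' hF] at this
      field_simp at this
      linarith
  · rcases lt_or_gt_of_ne h3 with h3 | h3
    · have := kap_mul_pos hF (l := l) (z := -(z + w)) (w := z) (by rw [map_neg]; omega) h1
      rw [show -(z + w) + z = -w by abel, kap_neg' hF, kap_neg' hF] at this
      field_simp at this
      linarith
    · have := kap_mul_pos hF (l := l) (z := z + w) (w := -w) h3 (by rw [map_neg]; omega)
      rw [show z + w + -w = z by abel, kap_neg' hF] at this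
      field_simp at this
      linarith
  · exact kap_mul_pos hF h1 h2

lemma single_mul_coeff (q : AddMonoidAlgebra ℝ G) (z : G) (a : ℝ) (x : G) :
    (single z a * q).coeff x = a * q.coeff (x - z) := by
  rw [mul_comm, mul_single_coeff, mul_comm]

theorem general_formula (hF : Endo F) (hG : Sep G) {p : AddMonoidAlgebra ℝ G} (hp : Pos p) :
    ∃ C : ℝ, ∀ x, (F p).coeff x = C * (kap F x * p.coeff x) := by
  classical
  set T := p.coeff.support with hT
  have hTne : T.Nonempty := by
    rw [hT, Finsupp.support_nonempty_iff]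
    intro h
    apply hp.2
    ext x; rw [h]; simp
  obtain ⟨l, hl⟩ := hG (((T ×ˢ T).image fun t => t.1 - t.2).filter fun x => x ≠ 0) (by
    intro x hx
    exact (Finset.mem_filter.mp hx).2)
  have hinj : ∀ x ∈ T, ∀ y ∈ T, l x = l y → x = y := by
    intro x hx y hy hxy
    by_contra hne
    have := hl (x - y) (by
      rw [Finset.mem_filter, Finset.mem_image]
      exact ⟨⟨(x, y), Finset.mk_mem_product hx hy, rfl⟩, sub_ne_zero.mpr hne⟩)
    apply this
    rw [map_sub, hxy, sub_self]
  obtain ⟨v, hv, hmin⟩ := Finset.exists_min_image T l hTne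
  have hpv : 0 < p.coeff v := lt_of_le_of_ne (hp.1 v) (Ne.symm (by simpa [hT] using hv))
  obtain ⟨r, hr, hrE⟩ := F_single hF (-v)
  set p' : AddMonoidAlgebra ℝ G := (p.coeff v)⁻¹ • (single (-v) 1 * p) with hp'
  have hp'c : ∀ x, p'.coeff x = (p.coeff v)⁻¹ * p.coeff (x + v) := by
    intro x
    rw [hp', AddMonoidAlgebra.coeff_smul, Finsupp.smul_apply, single_mul_coeff, smul_eq_mul,
      one_mul, sub_neg_eq_add]
  have hFp' : ∀ x, (F p').coeff x = r * (F p).coeff (x + v) := by
    intro x
    rw [hp', hF.smul _ ((single_pos _).mul hp) _ (inv_pos.mpr hpv),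
      hF.mul _ _ (single_pos _) hp, hrE, single_mul_coeff, sub_neg_eq_add]
  have hp'0 : p'.coeff 0 = 1 := by rw [hp'c, zero_add, inv_mul_cancel₀ hpv.ne']
  have hp'n : ∀ x, 0 ≤ p'.coeff x := by
    intro x; rw [hp'c]; exact mul_nonneg (inv_nonneg.mpr hpv.le) (hp.1 _)
  have hmem : ∀ x, p'.coeff x ≠ 0 → x + v ∈ T := by
    intro x hx
    rw [hp'c] at hx
    rw [hT, Finsupp.mem_support_iff]
    exact right_ne_zero_of_mul hx
  have hlev : Lev l 1 (p' - 1) := by
    intro x hx
    have hx0 : x ≠ 0 := by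
      rintro rfl
      apply hx
      rw [AddMonoidAlgebra.coeff_sub, Finsupp.sub_apply, hp'0, AddMonoidAlgebra.one_def]
      simp
    have hpx : p'.coeff x ≠ 0 := by
      intro h
      apply hx
      rw [AddMonoidAlgebra.coeff_sub, Finsupp.sub_apply, h, AddMonoidAlgebra.one_def]
      simp [hx0]
    have h1 := hmem x hpx
    have h2 := hmin _ h1
    have h3 : l (x + v) ≠ l v := by
      intro h
      have := hinj _ h1 _ hv h
      apply hx0
      simpa using this
    rw [map_add] at h2 h3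
    omega
  have hkey : ∀ x, (F p').coeff x = (F p').coeff 0 * (kap F x * p'.coeff x) := by
    intro x
    by_cases hx0 : x = 0
    · rw [hx0, kap_zero hF, hp'0]; ring
    · by_cases hpx : p'.coeff x = 0
      · have hP' : Pos p' := ⟨hp'n, fun h => by rw [h] at hp'0; simp at hp'0⟩
        rw [hpx, hF.coeff_zero hP' hpx]; ring
      · refine coeff_formula hF hp'n hp'0 hlev hx0 hpx ?_
        intro y hy hly
        have := hinj _ (hmem y hy) _ (hmem x hpx) (by rw [map_add, map_add, hly])
        simpa using this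
  refine ⟨(F p).coeff v * (p.coeff v)⁻¹ * (kap F v)⁻¹, ?_⟩
  intro y
  have h1 := hkey (y - v)
  rw [hFp', hFp', hp'c, sub_add_cancel, zero_add] at h1
  have h2 : kap F y = kap F (y - v) * kap F v := by
    rw [← kap_mul hF hG, sub_add_cancel]
  have h3 := kap_pos hF v
  apply mul_left_cancel₀ hr.ne'
  rw [h1, h2]
  field_simp

/-- The total mass as an algebra homomorphism. -/
noncomputable def tot : AddMonoidAlgebra ℝ G →ₐ[ℝ] ℝ := AddMonoidAlgebra.lift ℝ ℝ G 1

lemma tot_apply (p : AddMonoidAlgebra ℝ G) : tot p = ∑ x ∈ p.coeff.support, p.coeff x := by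
  rw [tot, AddMonoidAlgebra.lift_apply, Finsupp.sum]
  simp

lemma tot_pos {p : AddMonoidAlgebra ℝ G} (hp : Pos p) : 0 < tot p := by
  rw [tot_apply]
  obtain ⟨x, hx⟩ := hp.exists
  exact Finset.sum_pos' (fun y _ => hp.1 y) ⟨x, by simpa using hx.ne', hx⟩

end General

section Lattice

variable {d : ℕ}

lemma sep_lattice (d : ℕ) : Sep (Fin d → ℤ) := by
  classical
  intro S hS
  set P : (Fin d → ℤ) → Polynomial ℤ :=
    fun x => ∑ i : Fin d, Polynomial.monomial (i : ℕ) (x i) with hP
  have hPne : ∀ x ∈ S, P x ≠ 0 := by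
    intro x hx h
    apply hS x hx
    funext i
    have := congrArg (fun q => Polynomial.coeff q (i : ℕ)) h
    simp only [hP, Polynomial.finsetSum_coeff, Polynomial.coeff_monomial, Polynomial.coeff_zero]
      at this
    rw [Finset.sum_eq_single i] at this
    · simpa using this
    · intro b _ hb
      rw [if_neg]
      intro h; exact hb (Fin.ext h)
    · simp
  have hprod : (∏ x ∈ S, P x) ≠ 0 := Finset.prod_ne_zero_iff.mpr hPne
  obtain ⟨n, hn⟩ : ∃ n : ℤ, (∏ x ∈ S, P x).eval n ≠ 0 := by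
    by_contra h
    push Not at h
    exact hprod (Polynomial.funext fun r => by rw [h r, Polynomial.eval_zero])
  rw [Polynomial.eval_prod, Finset.prod_ne_zero_iff] at hn
  refine ⟨{ toFun := fun x => ∑ i : Fin d, x i * n ^ (i : ℕ), map_zero' := by simp,
            map_add' := fun x y => by simp [add_mul, Finset.sum_add_distrib] }, ?_⟩
  intro x hx
  have := hn x hx
  simpa [hP, Polynomial.eval_finsetSum] using this

/-- Finitely supported probability measures on the lattice `ℤ^d`, given by their densities: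
finitely supported nonnegative functions with total mass one. -/
structure PMeas (d : ℕ) where
  /-- the value of the measure at each lattice point -/
  dens : (Fin d → ℤ) →₀ ℝ
  nonneg : ∀ x, 0 ≤ dens x
  mass_one : ∑ x ∈ dens.support, dens x = 1

lemma PMeas.ext' {μ ν : PMeas d} (h : μ.dens = ν.dens) : μ = ν := by
  cases μ; cases ν; cases h; rfl

/-- The group algebra element of a measure. -/
noncomputable def PMeas.alg (μ : PMeas d) : AddMonoidAlgebra ℝ (Fin d → ℤ) :=
  AddMonoidAlgebra.ofCoeff μ.dens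

lemma PMeas.tot_alg (μ : PMeas d) : tot μ.alg = 1 := by
  rw [tot_apply]; exact μ.mass_one

lemma PMeas.pos_alg (μ : PMeas d) : Pos μ.alg := by
  refine ⟨μ.nonneg, ?_⟩
  intro h
  have := μ.tot_alg
  rw [h, map_zero] at this
  exact zero_ne_one this

/-- Convolution of two measures, given by the product in the group algebra;
see `conv_apply` for the explicit formula. -/
noncomputable def conv (μ ν : PMeas d) : PMeas d where
  dens := (AddMonoidAlgebra.ofCoeff μ.dens * AddMonoidAlgebra.ofCoeff ν.dens).coeff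
  nonneg := (μ.pos_alg.mul ν.pos_alg).1
  mass_one := by
    rw [← tot_apply]
    change tot (μ.alg * ν.alg) = 1
    rw [map_mul, μ.tot_alg, ν.tot_alg, one_mul]

/-- The explicit convolution formula. -/
theorem conv_apply (μ ν : PMeas d) (x : Fin d → ℤ) :
    (conv μ ν).dens x = ∑ y ∈ μ.dens.support, μ.dens y * ν.dens (x - y) :=
  mul_coeff μ.alg ν.alg x

/-- Normalising a nonnegative nonzero element to a probability measure. -/
noncomputable def normalise (p : AddMonoidAlgebra ℝ (Fin d → ℤ)) (hp : Pos p) : PMeas d where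
  dens := ((tot p)⁻¹ • p).coeff
  nonneg x := by
    rw [AddMonoidAlgebra.coeff_smul, Finsupp.smul_apply, smul_eq_mul]
    exact mul_nonneg (inv_nonneg.mpr (tot_pos hp).le) (hp.1 x)
  mass_one := by
    rw [← tot_apply, map_smul, smul_eq_mul, inv_mul_cancel₀ (tot_pos hp).ne']

open Classical in
/-- The extension of a self-map of measures to nonnegative nonzero elements. -/
noncomputable def ext (Φ : PMeas d → PMeas d) (p : AddMonoidAlgebra ℝ (Fin d → ℤ)) :
    AddMonoidAlgebra ℝ (Fin d → ℤ) :=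
  if hp : Pos p then (Φ (normalise p hp)).alg else 0

lemma ext_of_pos (Φ : PMeas d → PMeas d) {p : AddMonoidAlgebra ℝ (Fin d → ℤ)} (hp : Pos p) :
    ext Φ p = (Φ (normalise p hp)).alg := by
  rw [ext, dif_pos hp]

lemma normalise_mul {p q : AddMonoidAlgebra ℝ (Fin d → ℤ)} (hp : Pos p) (hq : Pos q) :
    normalise (p * q) (hp.mul hq) = conv (normalise p hp) (normalise q hq) := by
  apply PMeas.ext'
  change ((tot (p * q))⁻¹ • (p * q)).coeff = (((tot p)⁻¹ • p) * ((tot q)⁻¹ • q)).coeff
  rw [map_mul, mul_inv, smul_mul_smul_comm]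

lemma Pos.smul {p : AddMonoidAlgebra ℝ (Fin d → ℤ)} (hp : Pos p) {c : ℝ} (hc : 0 < c) :
    Pos (c • p) := by
  refine ⟨fun x => ?_, ?_⟩
  · rw [AddMonoidAlgebra.coeff_smul, Finsupp.smul_apply, smul_eq_mul]
    exact mul_nonneg hc.le (hp.1 x)
  · exact smul_ne_zero hc.ne' hp.2

lemma normalise_smul {p : AddMonoidAlgebra ℝ (Fin d → ℤ)} (hp : Pos p) {c : ℝ} (hc : 0 < c) :
    normalise (c • p) (hp.smul hc) = normalise p hp := by
  apply PMeas.ext'
  change ((tot (c • p))⁻¹ • (c • p)).coeff = ((tot p)⁻¹ • p).coeff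
  rw [map_smul, smul_eq_mul, smul_smul]
  congr 2
  have := (tot_pos hp).ne'
  field_simp

lemma normalise_alg (μ : PMeas d) : normalise μ.alg μ.pos_alg = μ := by
  apply PMeas.ext'
  change ((tot μ.alg)⁻¹ • μ.alg).coeff = μ.dens
  rw [μ.tot_alg, inv_one, one_smul]
  rfl

lemma endo_ext {Φ : PMeas d → PMeas d} (hmul : ∀ μ ν, Φ (conv μ ν) = conv (Φ μ) (Φ ν))
    (hsupp : ∀ μ, (Φ μ).dens.support = μ.dens.support) : Endo (ext Φ) where
  mul p q hp hq := by
    rw [ext_of_pos Φ hp, ext_of_pos Φ hq, ext_of_pos Φ (hp.mul hq), normalise_mul hp hq, hmul]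
    rfl
  pos p hp := by
    rw [ext_of_pos Φ hp]
    exact (Φ (normalise p hp)).pos_alg
  supp p hp x := by
    rw [ext_of_pos Φ hp]
    change (Φ (normalise p hp)).dens x ≠ 0 ↔ p.coeff x ≠ 0
    rw [← Finsupp.mem_support_iff, hsupp, Finsupp.mem_support_iff]
    change ((tot p)⁻¹ • p).coeff x ≠ 0 ↔ p.coeff x ≠ 0
    rw [AddMonoidAlgebra.coeff_smul, Finsupp.smul_apply, smul_eq_mul]
    have := inv_ne_zero (tot_pos hp).ne'
    simp only [ne_eq, mul_eq_zero, this, false_or]
  smul p hp c hc := by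
    rw [ext_of_pos Φ hp, ext_of_pos Φ (hp.smul hc), normalise_smul hp hc]

/-- Every support-preserving endomorphism of the convolution semigroup of finitely supported
probability measures on `ℤ^d` is a Boltzmann reweighting. -/
theorem result (d : ℕ) (Φ : PMeas d → PMeas d)
    (hmul : ∀ μ ν : PMeas d, Φ (conv μ ν) = conv (Φ μ) (Φ ν))
    (hsupp : ∀ μ : PMeas d, (Φ μ).dens.support = μ.dens.support) :
    ∃ β : Fin d → ℝ, ∀ (μ : PMeas d) (x : Fin d → ℤ),
      (Φ μ).dens x = μ.dens x * Real.exp (-∑ i, β i * x i) /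
        ∑ y ∈ μ.dens.support, μ.dens y * Real.exp (-∑ i, β i * y i) := by
  classical
  have hF := endo_ext hmul hsupp
  have hG := sep_lattice d
  set F := ext Φ with hFdef
  -- the logarithm of the multiplier is additive
  let lg : (Fin d → ℤ) →+ ℝ :=
    { toFun := fun z => Real.log (kap F z)
      map_zero' := by rw [kap_zero hF, Real.log_one]
      map_add' := fun z w => by
        rw [kap_mul hF hG, Real.log_mul (kap_pos hF z).ne' (kap_pos hF w).ne'] }
  have hlg : ∀ z, Real.exp (lg z) = kap F z := fun z => Real.exp_log (kap_pos hF z)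
  refine ⟨fun i => -lg (Pi.single i 1), ?_⟩
  have hexp : ∀ z : Fin d → ℤ, Real.exp (-∑ i, (-lg (Pi.single i 1)) * z i) = kap F z := by
    intro z
    rw [← hlg z]
    congr 1
    have : z = ∑ i, z i • (Pi.single i 1 : Fin d → ℤ) := by
      funext j
      simp [Finset.sum_apply, Pi.single_apply]
    conv_rhs => rw [this]
    rw [map_sum, ← Finset.sum_neg_distrib]
    refine Finset.sum_congr rfl fun i _ => ?_
    rw [map_zsmul, zsmul_eq_mul]
    ring
  intro μ x
  obtain ⟨C, hC⟩ := general_formula hF hG μ.pos_alg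
  have hFμ : ∀ y, (F μ.alg).coeff y = (Φ μ).dens y := by
    intro y
    rw [hFdef, ext_of_pos Φ μ.pos_alg, normalise_alg]
    rfl
  have hC' : ∀ y, (Φ μ).dens y = C * (kap F y * μ.dens y) := fun y => by
    rw [← hFμ, hC]; rfl
  have hsum : C * ∑ y ∈ μ.dens.support, μ.dens y * kap F y = 1 := by
    rw [← (Φ μ).mass_one, hsupp, Finset.mul_sum]
    refine Finset.sum_congr rfl fun y _ => ?_
    rw [hC']; ring
  have hne : (∑ y ∈ μ.dens.support, μ.dens y * kap F y) ≠ 0 := right_ne_zero_of_mul_eq_one hsum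
  simp only [hexp]
  rw [eq_div_iff hne, hC']
  calc C * (kap F x * μ.dens x) * ∑ y ∈ μ.dens.support, μ.dens y * kap F y
      = (kap F x * μ.dens x) * (C * ∑ y ∈ μ.dens.support, μ.dens y * kap F y) := by ring
    _ = μ.dens x * kap F x := by rw [hsum]; ring

end Lattice

end Pool.Agent.Results.MP_847c7e_pr.Boltzmann
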